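import Pool.Agent.X328.TAU.Stm
import Pool.Agent.X60.GN.Spec

/-!
# Project TAU, part SPEC: algebraic relations at special parameters
-/

set_option autoImplicit false

universe u

namespace Pool.Agent.X60.TAU

open Finset Polynomial
open Pool.Agent.X328.GN (Ix)
open Pool.Agent.X328.TAU

/-- the variables -/
noncomputable def XX (d : ℕ) : Ix d → MvPolynomial (Ix d) ℚ := fun i => MvPolynomial.X i

/-- the data before the division by the leading coefficient -/
noncomputable def aa (d : ℕ) (hd : 2 ≤ d) : Option (Fin (d ^ 2 + 1)) → MvPolynomial (Ix d) ℚ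
  | none => la d hd (XX d) * (chi2 d (XX d)).coeff (d ^ 2)
  | some j => (chi2 d (XX d)).coeff j

theorem chi_coeff (hC : S_CHI.{0, u}) (d : ℕ) (K : Type u) [Field K]
    (φ : MvPolynomial (Ix d) ℚ →+* K) (j : ℕ) :
    (chi2 d (fun i => φ (XX d i))).coeff j = φ ((chi2 d (XX d)).coeff j) := by
  have h5 := (hC.1 (MvPolynomial (Ix d) ℚ) K φ d (XX d)).2.2.2
  rw [← h5, coeff_map]

theorem vals_eq (hC : S_CHI.{0, u}) (d : ℕ) (hd : 2 ≤ d) (K : Type u) [Field K]
    (φ : MvPolynomial (Ix d) ℚ →+* K) (hr : φ ((chi2 d (XX d)).coeff (d ^ 2)) ≠ 0) :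
    vals d hd (fun i => φ (XX d i)) =
      fun j => φ (aa d hd j) / φ ((chi2 d (XX d)).coeff (d ^ 2)) := by
  funext j
  match j with
  | none =>
    show la d hd (fun i => φ (XX d i)) = φ (la d hd (XX d) * (chi2 d (XX d)).coeff (d ^ 2)) / _
    rw [map_mul, mul_div_cancel_right₀ _ hr]
    rfl
  | some j =>
    show (chi2 d (fun i => φ (XX d i))).coeff j / (chi2 d (fun i => φ (XX d i))).coeff (d ^ 2) =
      φ ((chi2 d (XX d)).coeff j) / _
    rw [chi_coeff hC, chi_coeff hC]

/-- **Part SPEC.** -/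
theorem t_SPEC (hA : S_ALG) (hC0 : S_CHI.{0, 0}) (hC : S_CHI.{0, u}) : S_SPEC.{u} := by
  intro d hd
  obtain ⟨h1, h2, h3⟩ := hA d hd
  change (chi2 d (XX d)).coeff (d ^ 2) ≠ 0 at h1
  change (Ph2 d (XX d)).coeff (d ^ 2) ≠ 0 at h2
  have hr0 : algebraMap (MvPolynomial (Ix d) ℚ) (FractionRing (MvPolynomial (Ix d) ℚ))
      ((chi2 d (XX d)).coeff (d ^ 2)) ≠ 0 := by
    intro h
    exact h1 ((IsFractionRing.injective (MvPolynomial (Ix d) ℚ)
      (FractionRing (MvPolynomial (Ix d) ℚ))) (by rw [h, map_zero]))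
  have hv := vals_eq hC0 d hd (FractionRing (MvPolynomial (Ix d) ℚ))
    (algebraMap (MvPolynomial (Ix d) ℚ) (FractionRing (MvPolynomial (Ix d) ℚ))) hr0
  have h4 : ∀ i : Ix d, ∃ (M : ℕ) (G : ℕ → MvPolynomial (Option (Fin (d ^ 2 + 1))) ℚ)
      (e : MvPolynomial (Ix d) ℚ), e ≠ 0 ∧ ∀ (K : Type u) [Field K] [Algebra ℚ K]
      (φ : MvPolynomial (Ix d) ℚ →+* K), φ ((chi2 d (XX d)).coeff (d ^ 2)) ≠ 0 →
      φ e ≠ 0 →
      (∃ m ≤ M, MvPolynomial.aeval (fun j => φ (aa d hd j) /
        φ ((chi2 d (XX d)).coeff (d ^ 2))) (G m) ≠ 0) ∧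
      ∑ m ∈ range (M + 1), MvPolynomial.aeval (fun j => φ (aa d hd j) /
        φ ((chi2 d (XX d)).coeff (d ^ 2))) (G m) * φ (XX d i) ^ m = 0 := by
    intro i
    refine Pool.Agent.X60.GN.alg_spec (L := FractionRing (MvPolynomial (Ix d) ℚ)) (aa d hd)
      ((chi2 d (XX d)).coeff (d ^ 2)) (XX d i) h1 ?_
    have h5 := h3 i
    change IsAlgebraic (IntermediateField.adjoin ℚ (Set.range (vals d hd (fun i =>
      algebraMap (MvPolynomial (Ix d) ℚ) (FractionRing (MvPolynomial (Ix d) ℚ)) (XX d i)))))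
      (algebraMap (MvPolynomial (Ix d) ℚ) (FractionRing (MvPolynomial (Ix d) ℚ)) (XX d i)) at h5
    rw [hv] at h5
    exact h5
  choose M G e he hK using h4
  refine ⟨(chi2 d (XX d)).coeff (d ^ 2) * (Ph2 d (XX d)).coeff (d ^ 2) * ∏ i, e i,
    univ.sup M, fun i m => if m ≤ M i then G i m else 0, ?_, ?_⟩
  · exact mul_ne_zero (mul_ne_zero h1 h2) (prod_ne_zero_iff.mpr fun i _ => he i)
  · intro K _ _ κ hD
    let φ : MvPolynomial (Ix d) ℚ →+* K := (MvPolynomial.aeval κ : MvPolynomial (Ix d) ℚ →ₐ[ℚ] K)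
    have hφ : ∀ p, MvPolynomial.aeval κ p = φ p := fun p => rfl
    have hX : (fun i => φ (XX d i)) = κ := by
      funext i
      exact MvPolynomial.aeval_X κ i
    rw [hφ, map_mul, map_mul, map_prod] at hD
    have hD1 := left_ne_zero_of_mul (left_ne_zero_of_mul hD)
    have hD2 := right_ne_zero_of_mul (left_ne_zero_of_mul hD)
    have hD3 := right_ne_zero_of_mul hD
    have hPh : ∀ j, (Ph2 d κ).coeff j = φ ((Ph2 d (XX d)).coeff j) := by
      intro j
      have h5 := (hC.1 (MvPolynomial (Ix d) ℚ) K φ d (XX d)).2.2.1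
      rw [hX] at h5
      rw [← h5, coeff_map]
    have hvK := vals_eq hC d hd K φ hD1
    rw [hX] at hvK
    have hchi : ∀ j, (chi2 d κ).coeff j = φ ((chi2 d (XX d)).coeff j) := by
      intro j
      rw [← chi_coeff hC d K φ j, hX]
    refine ⟨?_, ?_, ?_⟩
    · rw [hchi]
      exact hD1
    · rw [hPh]
      exact hD2
    · intro i
      obtain ⟨⟨m, hm, hmne⟩, hrel⟩ := hK i K φ hD1 (prod_ne_zero_iff.mp hD3 i (mem_univ i))
      have hM : M i ≤ univ.sup M := le_sup (mem_univ i)
      have hXi : φ (XX d i) = κ i := congrFun hX i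
      rw [hvK]
      refine ⟨⟨m, hm.trans hM, ?_⟩, ?_⟩
      · beta_reduce
        rw [if_pos hm]
        exact hmne
      · rw [hXi] at hrel
        have hsub : range (M i + 1) ⊆ range (univ.sup M + 1) :=
          range_subset_range.mpr (Nat.add_le_add_right hM 1)
        rw [← hrel]
        symm
        apply sum_subset_zero_on_sdiff hsub
        · intro m' hm'
          have h6 : ¬ m' ≤ M i := by
            have := (mem_sdiff.mp hm').2
            rw [mem_range] at this
            omega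
          beta_reduce
          rw [if_neg h6, map_zero, zero_mul]
        · intro m' hm'
          have h6 : m' ≤ M i := by
            rw [mem_range] at hm'
            omega
          beta_reduce
          rw [if_pos h6]

end Pool.Agent.X60.TAU
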